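import Pool.Agent.N298.HS.StmB

/-!
# Project HS (helper298): bounded generation of `K` (owner helper433)
-/

set_option autoImplicit false

namespace Pool.Agent.N433.HS

open Pool.Agent.N298.HS

variable {R K : Type} [CommRing R] [Group K] {x : Fin 8 → Fin 8 → R → K}

theorem x0 (h : Rels RK x) {i j : Fin 8} (hij : RK i j) : x i j 0 = 1 := by
  have h1 := h.add i j hij 0 0
  rw [add_zero] at h1
  exact left_eq_mul.1 h1

theorem xneg (h : Rels RK x) {i j : Fin 8} (hij : RK i j) (r : R) :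
    x i j (-r) = (x i j r)⁻¹ := by
  have h1 := h.add i j hij (-r) r
  rw [neg_add_cancel, x0 h hij] at h1
  exact eq_inv_of_mul_eq_one_left h1.symm

/-- a root subgroup -/
def rt (h : Rels RK x) (i j : Fin 8) (hij : RK i j) : Subgroup K where
  carrier := {g | ∃ r, g = x i j r}
  mul_mem' := by
    rintro _ _ ⟨r, rfl⟩ ⟨s, rfl⟩
    exact ⟨r + s, (h.add i j hij r s).symm⟩
  one_mem' := ⟨0, (x0 h hij).symm⟩
  inv_mem' := by
    rintro _ ⟨r, rfl⟩
    exact ⟨-r, (xneg h hij r).symm⟩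

/-- the products -/
def pr (A B : Subgroup K) (h : ∀ a ∈ A, ∀ b ∈ B, a * b * a⁻¹ ∈ B) : Subgroup K where
  carrier := {g | ∃ a ∈ A, ∃ b ∈ B, g = a * b}
  mul_mem' := by
    rintro _ _ ⟨a, ha, b, hb, rfl⟩ ⟨a', ha', b', hb', rfl⟩
    refine ⟨a * a', A.mul_mem ha ha', a'⁻¹ * b * a' * b', B.mul_mem ?_ hb', by group⟩
    have := h a'⁻¹ (A.inv_mem ha') b hb
    rwa [inv_inv] at this
  one_mem' := ⟨1, A.one_mem, 1, B.one_mem, by group⟩
  inv_mem' := by
    rintro _ ⟨a, ha, b, hb, rfl⟩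
    exact ⟨a⁻¹, A.inv_mem ha, a * b⁻¹ * a⁻¹, h a ha _ (B.inv_mem hb), by group⟩

theorem join {D : K → ℝ} (hD : ∀ g h, D (g * h) ≤ D g + D h) (A B : Subgroup K)
    (h : ∀ a ∈ A, ∀ b ∈ B, a * b * a⁻¹ ∈ B) {a b : ℝ} (hA : ∀ g ∈ A, D g ≤ a)
    (hB : ∀ g ∈ B, D g ≤ b) : ∀ g ∈ A ⊔ B, D g ≤ a + b := by
  intro g hg
  have h1 : A ⊔ B ≤ pr A B h := by
    refine sup_le (fun g hg => ?_) (fun g hg => ?_)
    · exact ⟨g, hg, 1, B.one_mem, by group⟩
    · exact ⟨1, A.one_mem, g, hg, by group⟩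
  obtain ⟨u, hu, v, hv, rfl⟩ := h1 hg
  exact (hD u v).trans (add_le_add (hA u hu) (hB v hv))

/-- the group generated by a list of root subgroups -/
def Y (x : Fin 8 → Fin 8 → R → K) (T : List (Fin 8 × Fin 8)) : Subgroup K :=
  Subgroup.closure {g | ∃ t ∈ T, ∃ r, g = x t.1 t.2 r}

instance (i j : Fin 8) : Decidable (RK i j) := by
  unfold RK
  infer_instance

/-- the condition for the normalisation -/
def cnd (q : Fin 8 × Fin 8) (T : List (Fin 8 × Fin 8)) : Bool :=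
  T.all fun t => decide (RK t.1 t.2) && (decide (q.2 ≠ t.1 ∧ q.1 ≠ t.2) ||
    decide (q.2 = t.1 ∧ q.1 ≠ t.2 ∧ (q.1, t.2) ∈ T) ||
    decide (q.2 ≠ t.1 ∧ q.1 = t.2 ∧ (t.1, q.2) ∈ T))

theorem cnd_iff {q : Fin 8 × Fin 8} {T : List (Fin 8 × Fin 8)} (h : cnd q T = true) :
    ∀ t ∈ T, RK t.1 t.2 ∧ ((q.2 ≠ t.1 ∧ q.1 ≠ t.2) ∨
      (q.2 = t.1 ∧ q.1 ≠ t.2 ∧ (q.1, t.2) ∈ T) ∨
      (q.2 ≠ t.1 ∧ q.1 = t.2 ∧ (t.1, q.2) ∈ T)) := by
  intro t ht
  unfold cnd at h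
  rw [List.all_eq_true] at h
  have h1 := h t ht
  rw [Bool.and_eq_true, Bool.or_eq_true, Bool.or_eq_true, decide_eq_true_iff, decide_eq_true_iff,
    decide_eq_true_iff, decide_eq_true_iff] at h1
  exact ⟨h1.1, by tauto⟩

theorem conj_mem (h : Rels RK x) {q : Fin 8 × Fin 8} (hq : RK q.1 q.2)
    {T : List (Fin 8 × Fin 8)} (hc : cnd q T = true) (r : R) :
    ∀ b ∈ Y x T, x q.1 q.2 r * b * (x q.1 q.2 r)⁻¹ ∈ Y x T := by
  have h1 : Y x T ≤ (Y x T).comap (MulAut.conj (x q.1 q.2 r)).toMonoidHom := by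
    unfold Y
    rw [Subgroup.closure_le]
    rintro _ ⟨t, ht, s, rfl⟩
    have hgen : ∀ t' ∈ T, ∀ s', x t'.1 t'.2 s' ∈
        Subgroup.closure {g | ∃ t ∈ T, ∃ r, g = x t.1 t.2 r} :=
      fun t' ht' s' => Subgroup.subset_closure ⟨t', ht', s', rfl⟩
    change x q.1 q.2 r * x t.1 t.2 s * (x q.1 q.2 r)⁻¹ ∈
      Subgroup.closure {g | ∃ t ∈ T, ∃ r, g = x t.1 t.2 r}
    obtain ⟨hR, h2 | ⟨h2, h3, h4⟩ | ⟨h2, h3, h4⟩⟩ := cnd_iff hc t ht
    · rw [h.com q.1 q.2 t.1 t.2 hq hR h2.1 h2.2, mul_inv_cancel_right]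
      exact hgen t ht s
    · have h5 := h.mul q.1 q.2 t.2 hq (by rw [h2]; exact hR) h3 r s
      rw [← h2, h5, mul_inv_cancel_right]
      refine Subgroup.mul_mem _ (hgen _ h4 _) ?_
      rw [h2]
      exact hgen t ht s
    · have hne : t.1 ≠ q.2 := fun h' => h2 h'.symm
      have h5 := h.mul t.1 t.2 q.2 hR (by rw [← h3]; exact hq) hne s r
      rw [← h3] at h5
      have h6 : x q.1 q.2 r * x t.1 t.2 s * (x q.1 q.2 r)⁻¹ =
          (x t.1 q.2 (s * r))⁻¹ * x t.1 t.2 s := by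
        rw [← h3, mul_inv_eq_iff_eq_mul, mul_assoc, h5]
        group
      rw [h6]
      exact Subgroup.mul_mem _ (Subgroup.inv_mem _ (hgen _ h4 _)) (hgen t ht s)
  intro b hb
  exact h1 hb

/-- the chain condition -/
def okl : List (Fin 8 × Fin 8) → Bool
  | [] => true
  | q :: T => decide (RK q.1 q.2) && cnd q T && okl T

theorem bound (h : Rels RK x) {D : K → ℝ} {δ : ℝ} (hD : ∀ g h, D (g * h) ≤ D g + D h)
    (hx : ∀ i j r, RK i j → D (x i j r) ≤ δ) :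
    ∀ (T : List (Fin 8 × Fin 8)) (q : Fin 8 × Fin 8), okl (q :: T) = true →
      ∀ g ∈ Y x (q :: T), D g ≤ (T.length + 1) * δ := by
  intro T
  induction T with
  | nil =>
    intro q hq g hg
    unfold okl at hq
    rw [Bool.and_eq_true, Bool.and_eq_true, decide_eq_true_iff] at hq
    have h1 : Y x [q] ≤ rt h q.1 q.2 hq.1.1 := by
      unfold Y
      rw [Subgroup.closure_le]
      rintro _ ⟨t, ht, s, rfl⟩
      rw [List.mem_singleton] at ht
      subst ht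
      exact ⟨s, rfl⟩
    obtain ⟨r, rfl⟩ := h1 hg
    rw [List.length_nil, Nat.cast_zero, zero_add, one_mul]
    exact hx _ _ _ hq.1.1
  | cons t T ih =>
    intro q hq g hg
    unfold okl at hq
    rw [Bool.and_eq_true, Bool.and_eq_true, decide_eq_true_iff] at hq
    obtain ⟨⟨h1, h2⟩, h3⟩ := hq
    have h4 : Y x (q :: t :: T) ≤ rt h q.1 q.2 h1 ⊔ Y x (t :: T) := by
      unfold Y
      rw [Subgroup.closure_le]
      rintro _ ⟨u, hu, s, rfl⟩
      rcases List.mem_cons.1 hu with rfl | hu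
      · exact Subgroup.mem_sup_left ⟨s, rfl⟩
      · exact Subgroup.mem_sup_right (Subgroup.subset_closure ⟨u, hu, s, rfl⟩)
    have h5 := join hD (rt h q.1 q.2 h1) (Y x (t :: T)) (by
      rintro _ ⟨r, rfl⟩ b hb
      exact conj_mem h h1 h2 r b hb) (a := δ) (b := (T.length + 1) * δ) (by
      rintro _ ⟨r, rfl⟩
      exact hx _ _ _ h1) (ih t h3) g (h4 hg)
    refine h5.trans (le_of_eq ?_)
    rw [List.length_cons]
    push_cast
    ring

/-- the roots outside `E` -/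
def L : List (Fin 8 × Fin 8) :=
  [(0, 4), (0, 5), (0, 6), (1, 4), (1, 5), (1, 6), (2, 4), (2, 5), (2, 6), (3, 4), (3, 5), (3, 6),
    (4, 7), (5, 7), (6, 7), (0, 7), (1, 7), (2, 7), (3, 7)]

theorem okL : okl L = true := by decide

theorem cndL : ∀ i j : Fin 8, RK i j → 4 ≤ i.val → j.val ≤ 6 → cnd (i, j) L = true := by decide

theorem allL : ∀ i j : Fin 8, RK i j → ¬ (4 ≤ i.val ∧ j.val ≤ 6) → (i, j) ∈ L := by decide

/-- **BG** -/
theorem t_bg : Pool.Agent.N298.HS.S_BG := by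
  intro R _ K _ x h htop D δ hD _ hx hE g
  set E : Subgroup K :=
    Subgroup.closure {g | ∃ i j r, RK i j ∧ 4 ≤ i.val ∧ j.val ≤ 6 ∧ g = x i j r} with hEdef
  have hN : ∀ g ∈ Y x L, D g ≤ 19 * δ := by
    intro g hg
    have h1 := bound h hD hx _ _ okL g hg
    refine h1.trans (le_of_eq ?_)
    norm_num
  have hnorm : E ≤ Subgroup.normalizer (Y x L : Set K) := by
    rw [hEdef, Subgroup.closure_le]
    rintro _ ⟨i, j, r, h1, h2, h3, rfl⟩
    have h4 : ∀ r : R, ∀ b ∈ Y x L, x i j r * b * (x i j r)⁻¹ ∈ Y x L := fun r b hb =>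
      conj_mem h (q := (i, j)) h1 (cndL i j h1 h2 h3) r b hb
    rw [SetLike.mem_coe, Subgroup.mem_normalizer_iff]
    intro b
    constructor
    · exact h4 r b
    · intro hb
      have h5 := h4 (-r) _ hb
      rw [xneg h h1, inv_inv] at h5
      have e : (x i j r)⁻¹ * (x i j r * b * (x i j r)⁻¹) * x i j r = b := by group
      rwa [e] at h5
  have h2 := join hD E (Y x L) (fun a ha b hb =>
    (Subgroup.mem_normalizer_iff.1 (hnorm ha) b).1 hb) hE hN g (by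
      have h3 : (⊤ : Subgroup K) ≤ E ⊔ Y x L := by
        rw [← htop, Subgroup.closure_le]
        rintro _ ⟨i, j, r, h1, rfl⟩
        by_cases h4 : 4 ≤ i.val ∧ j.val ≤ 6
        · exact Subgroup.mem_sup_left (Subgroup.subset_closure ⟨i, j, r, h1, h4.1, h4.2, rfl⟩)
        · exact Subgroup.mem_sup_right (Subgroup.subset_closure ⟨(i, j), allL i j h1 h4, r, rfl⟩)
      exact h3 (Subgroup.mem_top g))
  linarith

end Pool.Agent.N433.HS
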